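import Pool.Agent.Q267.ST.Stm

/-!
# Project ST of helper267: jobs Van and Root
-/

set_option autoImplicit false

open Finset

namespace Pool.Agent.Q225.ST

open Pool.Agent.Q267.ST

section

variable {k : Type} [Field k]

theorem iter_pow (q : Polynomial k) (t : k) (j : ℕ) : ∀ g : Polynomial k,
    ((fun f : Polynomial k => q * Polynomial.derivative f)^[j]
      ((Polynomial.X - Polynomial.C t) ^ j * g)).eval t =
      (j.factorial : k) * q.eval t ^ j * g.eval t := by
  induction j with
  | zero =>
    intro g
    simp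
  | succ j ih =>
    intro g
    rw [Function.iterate_succ_apply]
    have e : q * Polynomial.derivative ((Polynomial.X - Polynomial.C t) ^ (j + 1) * g) =
        (Polynomial.X - Polynomial.C t) ^ j * (q * (Polynomial.C ((j : k) + 1) * g
          + (Polynomial.X - Polynomial.C t) * Polynomial.derivative g)) := by
      rw [Polynomial.derivative_mul, Polynomial.derivative_X_sub_C_pow]
      push_cast
      ring
    rw [e, ih]
    simp only [Polynomial.eval_mul, Polynomial.eval_add, Polynomial.eval_C, Polynomial.eval_sub,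
      Polynomial.eval_X, sub_self, zero_mul, add_zero]
    rw [Nat.factorial_succ]
    push_cast
    ring

end

/-- JOB Van. -/
theorem van : S_Van := by
  classical
  intro k _ p _ _ q s N T hN hs hT
  have hmul : ∀ t ∈ T, N ≤ s.roots.count t := by
    intro t ht
    rw [Polynomial.count_roots]
    by_contra hlt
    rw [not_le] at hlt
    obtain ⟨g, hg, hgd⟩ := Polynomial.exists_eq_pow_rootMultiplicity_mul_and_not_dvd s hs t
    obtain ⟨j, hj⟩ : ∃ j, j = Polynomial.rootMultiplicity t s := ⟨_, rfl⟩
    rw [← hj] at hg hlt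
    have h1 := (hT t ht).2 j hlt
    rw [hg, iter_pow] at h1
    rw [Polynomial.dvd_iff_isRoot, Polynomial.IsRoot.def] at hgd
    have h2 : (j.factorial : k) ≠ 0 := by
      rw [Ne, CharP.cast_eq_zero_iff k p]
      intro hd
      have := (Nat.Prime.dvd_factorial (Fact.out : p.Prime)).1 hd
      omega
    exact mul_ne_zero (mul_ne_zero h2 (pow_ne_zero j (hT t ht).1)) hgd h1
  calc N * T.card = ∑ _t ∈ T, N := by rw [sum_const, smul_eq_mul, mul_comm]
    _ ≤ ∑ t ∈ T, s.roots.count t := sum_le_sum hmul
    _ ≤ ∑ t ∈ T ∪ s.roots.toFinset, s.roots.count t :=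
        sum_le_sum_of_subset subset_union_left
    _ = s.roots.card := Multiset.sum_count_eq_card fun a ha =>
        mem_union_right _ (Multiset.mem_toFinset.2 ha)
    _ ≤ s.natDegree := s.card_roots'

/-- JOB Root. -/
theorem root : S_Root := by
  intro R _ m hm y hy
  open PowerSeries in
  rcases hm with rfl | rfl
  · have h0 : constantCoeff (1 + y) = ((1 : Rˣ) : R) := by
      rw [map_add, map_one, hy, add_zero, Units.val_one]
    refine ⟨invOfUnit (1 + y) 1, ?_, ?_⟩
    · rw [constantCoeff_invOfUnit]
      simp
    · have h1 := mul_invOfUnit (1 + y) 1 h0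
      rw [pow_one, Nat.cast_one, one_pow, one_mul, mul_comm]
      exact h1
  · obtain ⟨c, hc⟩ : ∃ c : PowerSeries R, c ^ 2 * (-y) + 1 = c := by
      have ha : HasSubst (-y) := HasSubst.of_constantCoeff_zero' (by rw [map_neg, hy, neg_zero])
      have h1 := congrArg (PowerSeries.map (Nat.castRingHom R)) catalanSeries_sq_mul_X_add_one
      rw [map_add, map_mul, map_pow, map_one, PowerSeries.map_X] at h1
      have h2 := congrArg (substAlgHom (R := R) ha) h1
      rw [map_add, map_mul, map_pow, map_one, substAlgHom_X] at h2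
      exact ⟨_, h2⟩
    obtain ⟨f, hf⟩ : ∃ f : PowerSeries R, f = 1 + 2 * y * c := ⟨_, rfl⟩
    have hf2 : f ^ 2 = 1 + 4 * y := by
      have h3 : 4 * y * (c ^ 2 * (-y) + 1) = 4 * y * c := by rw [hc]
      rw [hf]
      linear_combination -h3
    have h0 : constantCoeff f = ((1 : Rˣ) : R) := by
      rw [hf, map_add, map_mul, map_mul, hy]
      simp
    refine ⟨invOfUnit f 1, ?_, ?_⟩
    · rw [constantCoeff_invOfUnit]
      simp
    · have h1 := mul_invOfUnit f 1 h0
      have e : (((2 : ℕ) : PowerSeries R)) ^ 2 * y = 4 * y := by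
        push_cast
        ring
      rw [e, ← hf2, ← mul_pow, mul_comm, h1, one_pow]

end Pool.Agent.Q225.ST
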